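import Pool.Agent.Helper5.RO.Goals
import Pool.Agent.Helper29.BL.RH

/-!
# RO-RL: local estimates for resultants
-/

namespace Pool.Agent.Helper88.RO

open Pool.Agent.Helper29.BL Pool.Agent.Helper29.GC Pool.Agent.Helper5.RO

noncomputable section

variable {K : Type} [Field K]

/-- Determinants with row bounds. -/
lemma det_le (v : AbsoluteValue K ℝ) {m : ℕ} (A : Matrix (Fin m) (Fin m) K) (ρ : Fin m → ℝ)
    (hρ : ∀ i, 0 ≤ ρ i) (h : ∀ i j, v (A i j) ≤ ρ i) :
    v A.det ≤ cst v (m.factorial) * ∏ i, ρ i := by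
  rw [Matrix.det_apply]
  refine abv_sum_le v _ _ (Finset.prod_nonneg fun i _ => hρ i) (fun σ _ => ?_) ?_
  · have h1 : v (Equiv.Perm.sign σ • ∏ i, A (σ i) i) = ∏ i, v (A (σ i) i) := by
      rcases Int.units_eq_one_or (Equiv.Perm.sign σ) with h | h
      · rw [h, one_smul, map_prod]
      · rw [h, Units.neg_smul, one_smul, map_neg_eq_map, map_prod]
    rw [h1]
    have h2 : ∏ i, ρ i = ∏ i, ρ (σ i) := (Equiv.prod_comp σ ρ).symm
    rw [h2]
    exact Finset.prod_le_prod (fun i _ => v.nonneg _) fun i _ => h _ _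
  · rw [Finset.card_univ, Fintype.card_perm, Fintype.card_fin]

lemma syl_le (v : AbsoluteValue K ℝ) (a : ℕ) (F G : Polynomial K) (N : ℝ) (hN : 0 ≤ N)
    (hF : ∀ k, v (F.coeff k) ≤ N) (hG : ∀ k, v (G.coeff k) ≤ N) (i j : Fin (a + a)) :
    v (Polynomial.sylvester F G a a i j) ≤ N := by
  rw [Polynomial.sylvester, Matrix.of_apply]
  induction j using Fin.addCases with
  | left j =>
    rw [Fin.addCases_left]
    split_ifs
    · exact hG _
    · simpa using hN
  | right j =>
    rw [Fin.addCases_right]
    split_ifs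
    · exact hF _
    · simpa using hN

/-- A product with the row `(t^i)`. -/
lemma vecMul_aux {R : Type*} [CommRing R] (a : ℕ) (G : Polynomial R) (hG : G.natDegree ≤ a) (t : R)
    (j : Fin a) :
    ∑ i : Fin (a + a), t ^ (i : ℕ) *
      (if (i : ℕ) ∈ Set.Icc (j : ℕ) (j + a) then G.coeff (i - j) else 0) =
      t ^ (j : ℕ) * G.eval t := by
  rw [Fin.sum_univ_eq_sum_range (fun i => t ^ i *
    (if i ∈ Set.Icc (j : ℕ) (j + a) then G.coeff (i - j) else 0)) (a + a)]
  rw [Polynomial.eval_eq_sum_range' (Nat.lt_succ_of_le hG) t, Finset.mul_sum]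
  symm
  refine Finset.sum_bij_ne_zero (fun k _ _ => j + k) ?_ ?_ ?_ ?_
  · intro k hk _
    rw [Finset.mem_range] at hk ⊢
    have := j.2
    omega
  · intro k _ _ k' _ _ h
    simpa using h
  · intro i hi hne
    have hi' : i ∈ Set.Icc (j : ℕ) (j + a) := by
      by_contra hc
      rw [if_neg hc, mul_zero] at hne
      exact hne rfl
    rw [if_pos hi'] at hne
    obtain ⟨h1, h2⟩ := hi'
    refine ⟨i - j, ?_, ?_, ?_⟩
    · rw [Finset.mem_range]; omega
    · intro h0
      apply hne
      have : t ^ i = t ^ (j : ℕ) * t ^ (i - j) := by rw [← pow_add]; congr 1; omega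
      rw [this, ← h0]; ring
    · omega
  · intro k hk _
    have hk' := Finset.mem_range.1 hk
    have : (j : ℕ) + k ∈ Set.Icc (j : ℕ) (j + a) := ⟨by omega, by omega⟩
    rw [if_pos this, pow_add]
    have e : (j : ℕ) + k - j = k := by omega
    rw [e]; ring

lemma det_mul_pow {R : Type*} [CommRing R] (a : ℕ) (F G : Polynomial R) (hF : F.natDegree ≤ a)
    (hG : G.natDegree ≤ a) (t : R) (k : Fin (a + a)) :
    Polynomial.resultant F G a a * t ^ (k : ℕ) =
      ∑ j : Fin (a + a), (j.addCases (fun j₁ => t ^ (j₁ : ℕ) * G.eval t)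
        (fun j₁ => t ^ (j₁ : ℕ) * F.eval t) : R) * (Polynomial.sylvester F G a a).adjugate j k := by
  have h1 : (Matrix.vecMul (Matrix.vecMul (fun i : Fin (a + a) => t ^ (i : ℕ))
      (Polynomial.sylvester F G a a)) (Polynomial.sylvester F G a a).adjugate) k =
      Polynomial.resultant F G a a * t ^ (k : ℕ) := by
    rw [Matrix.vecMul_vecMul, Matrix.mul_adjugate, Matrix.vecMul_smul, Matrix.vecMul_one]
    rfl
  rw [← h1, Matrix.vecMul, dotProduct]
  refine Finset.sum_congr rfl fun j _ => ?_
  congr 1
  rw [Matrix.vecMul, dotProduct]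
  induction j using Fin.addCases with
  | left j =>
    rw [Fin.addCases_left, ← vecMul_aux a G hG t j]
    refine Finset.sum_congr rfl fun i _ => ?_
    rw [Polynomial.sylvester, Matrix.of_apply, Fin.addCases_left]
  | right j =>
    rw [Fin.addCases_right, ← vecMul_aux a F hF t j]
    refine Finset.sum_congr rfl fun i _ => ?_
    rw [Polynomial.sylvester, Matrix.of_apply, Fin.addCases_right]

lemma adj_le (v : AbsoluteValue K ℝ) {m : ℕ} (A : Matrix (Fin (m + 1)) (Fin (m + 1)) K) (N : ℝ)
    (hN : 0 ≤ N) (h : ∀ i j, v (A i j) ≤ N) (i j : Fin (m + 1)) :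
    v (A.adjugate i j) ≤ cst v ((m + 1).factorial) * N ^ m := by
  classical
  rw [Matrix.adjugate_apply]
  refine (det_le v _ (fun r => if r = j then 1 else N) (fun r => ?_) (fun r s => ?_)).trans
    (le_of_eq ?_)
  · split_ifs
    · exact zero_le_one
    · exact hN
  · rw [Matrix.updateRow_apply]
    split_ifs with h1
    · rw [Pi.single_apply]
      split_ifs <;> simp
    · exact h _ _
  · congr 1
    rw [Finset.prod_ite, Finset.prod_const_one, one_mul, Finset.prod_const]
    congr 1
    rw [Finset.filter_ne' Finset.univ j, Finset.card_erase_of_mem (Finset.mem_univ _)]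
    simp

theorem gRL : G_RL := by
  refine ⟨fun a => (2 * a + 1 : ℕ) * ((2 * a).factorial : ℝ), fun a => ?_, ?_⟩
  · have h1 : (1 : ℝ) ≤ ((2 * a + 1 : ℕ) : ℝ) := by exact_mod_cast Nat.le_add_left 1 (2 * a)
    have h2 : (1 : ℝ) ≤ ((2 * a).factorial : ℝ) := by exact_mod_cast Nat.factorial_pos (2 * a)
    nlinarith
  · intro K _ v a F G t N hF hG hFN hGN
    have hN : 0 ≤ N := (v.nonneg _).trans (hFN 0)
    have h1 : (1 : ℝ) ≤ ((2 * a + 1 : ℕ) : ℝ) := by exact_mod_cast Nat.le_add_left 1 (2 * a)
    have h2 : (1 : ℝ) ≤ ((2 * a).factorial : ℝ) := by exact_mod_cast Nat.factorial_pos (2 * a)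
    have hc1 := cst_pos v h1
    have hc2 := cst_pos v h2
    refine ⟨?_, fun ha => ?_⟩
    · have h3 := det_le v (Polynomial.sylvester F G a a) (fun _ => N) (fun _ => hN)
        (fun i j => syl_le v a F G N hN hFN hGN i j)
      rw [Finset.prod_const, Finset.card_univ, Fintype.card_fin] at h3
      have h4 : v (Polynomial.resultant F G a a) ≤
          cst v ((2 * a).factorial : ℝ) * N ^ (2 * a) := by
        rw [two_mul]; exact h3
      refine h4.trans ?_
      refine mul_le_mul_of_nonneg_right (cst_mono v ?_) (pow_nonneg hN _)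
      nlinarith
    · obtain ⟨m, hm⟩ : ∃ m, a + a = m + 1 := ⟨a + a - 1, by omega⟩
      have hMv := Mv_pos v t
      have hadj : ∀ j k : Fin (a + a), v ((Polynomial.sylvester F G a a).adjugate j k) ≤
          cst v ((2 * a).factorial) * N ^ (2 * a - 1) := by
        have key : ∀ (n : ℕ) (A : Matrix (Fin n) (Fin n) K), n = m + 1 →
            (∀ i j, v (A i j) ≤ N) → ∀ i j, v (A.adjugate i j) ≤ cst v (n.factorial) * N ^ (n - 1) := by
          intro n A hn
          subst hn
          intro hA i j
          exact adj_le v A N hN hA i j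
        intro j k
        rw [two_mul]
        exact key (a + a) _ hm (fun i j => syl_le v a F G N hN hFN hGN i j) j k
      set E := max (v (F.eval t)) (v (G.eval t)) with hE
      have hE0 : 0 ≤ E := le_max_of_le_left (v.nonneg _)
      have hpw : ∀ j₁ : Fin a, v (t ^ (j₁ : ℕ)) ≤ Mv v t ^ (a - 1) := by
        intro j₁
        rw [map_pow]
        calc v t ^ (j₁ : ℕ) ≤ Mv v t ^ (j₁ : ℕ) := pow_le_pow_left₀ (v.nonneg _) (le_max_right _ _) _
          _ ≤ Mv v t ^ (a - 1) := pow_le_pow_right₀ (one_le_Mv v t) (by have := j₁.2; omega)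
      have hk : ∀ k : Fin (a + a), v (Polynomial.resultant F G a a) * v t ^ (k : ℕ) ≤
          cst v ((2 * a + 1 : ℕ) : ℝ) * (Mv v t ^ (a - 1) * E *
            (cst v ((2 * a).factorial) * N ^ (2 * a - 1))) := by
        intro k
        rw [← map_pow, ← map_mul, det_mul_pow a F G hF hG t k]
        refine abv_sum_le v _ _ (by positivity) (fun j _ => ?_) ?_
        · rw [map_mul]
          refine mul_le_mul ?_ (hadj j k) (v.nonneg _) (by positivity)
          induction j using Fin.addCases with
          | left j =>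
            rw [Fin.addCases_left, map_mul]
            exact mul_le_mul (hpw j) (le_max_right _ _) (v.nonneg _) (by positivity)
          | right j =>
            rw [Fin.addCases_right, map_mul]
            exact mul_le_mul (hpw j) (le_max_left _ _) (v.nonneg _) (by positivity)
        · rw [Finset.card_univ, Fintype.card_fin, ← two_mul]
          push_cast
          linarith
      have hfin : v (Polynomial.resultant F G a a) * Mv v t ^ (2 * a - 1) ≤
          cst v ((2 * a + 1 : ℕ) : ℝ) * (Mv v t ^ (a - 1) * E *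
            (cst v ((2 * a).factorial) * N ^ (2 * a - 1))) := by
        rcases le_total (v t) 1 with ht | ht
        · have : Mv v t = 1 := max_eq_left ht
          have h := hk ⟨0, by omega⟩
          rw [this] at h ⊢
          simpa using h
        · have : Mv v t = v t := max_eq_right ht
          have h := hk ⟨2 * a - 1, by omega⟩
          rw [this] at h ⊢
          exact h
      have e1 : Mv v t ^ (2 * a - 1) = Mv v t ^ a * Mv v t ^ (a - 1) := by
        rw [← pow_add]; congr 1; omega
      rw [e1] at hfin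
      have hpos : 0 < Mv v t ^ (a - 1) := pow_pos hMv _
      refine le_of_mul_le_mul_right ?_ hpos
      calc v (Polynomial.resultant F G a a) * Mv v t ^ a * Mv v t ^ (a - 1)
          = v (Polynomial.resultant F G a a) * (Mv v t ^ a * Mv v t ^ (a - 1)) := by ring
        _ ≤ _ := hfin
        _ = _ := by rw [cst_mul]; ring

end

end Pool.Agent.Helper88.RO
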